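import Pool.Agent.H207.TP.Stm

/-!
# Project TP (helper207), part ATT2: attracted points, from the plane to the sphere (helper914)
-/

set_option autoImplicit false

open Metric Set MeasureTheory Filter Topology Polynomial
open scoped OnePoint ENNReal

namespace Pool.Agent.H914.TP207.ATT2

open Pool.Agent.H792R2.CE Pool.Agent.H207.TP

theorem Mh_ne {b z : ℂ} (h : z ≠ b) : Mh b z = ((M b z : ℂ) : OnePoint ℂ) := by
  unfold Mh
  rw [if_neg h]

theorem iter_Mh {d : ℕ} {b : ℂ} {T : ℂ[X]}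
    (h : ∀ z : ℂ, sph d (X ^ d) (DQ d b T) (Mh b z) = Mh b (T.eval z)) (z : ℂ) (k : ℕ) :
    (sph d (X ^ d) (DQ d b T))^[k] (Mh b z) = Mh b ((ev T)^[k] z) := by
  induction k with
  | zero => rfl
  | succ k ih =>
    rw [Function.iterate_succ_apply', Function.iterate_succ_apply', ih, h]
    rfl

/-- the cycles do not contain escaping points -/
theorem cycle_ne {b : ℂ} {T : ℂ[X]} (hb : Esc T b) {n : ℕ} (hn : 0 < n) {x : ℂ}
    (hx : (ev T)^[n] x = x) (j : ℕ) : (ev T)^[j] x ≠ b := by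
  intro hj
  have hper : ∀ k : ℕ, (ev T)^[n * k] x = x := by
    intro k
    induction k with
    | zero => rfl
    | succ k ih => rw [Nat.mul_succ, Function.iterate_add_apply, hx, ih]
  have h1 : ∀ k : ℕ, (ev T)^[n * k] b = b := by
    intro k
    rw [← hj, ← Function.iterate_add_apply, Nat.add_comm, Function.iterate_add_apply, hper]
  have h2 : Tendsto (fun k : ℕ => n * k) atTop atTop :=
    tendsto_atTop_mono (fun k => Nat.le_mul_of_pos_left k hn) tendsto_id
  have h3 : Tendsto (fun k : ℕ => ‖(ev T)^[n * k] b‖) atTop atTop := hb.comp h2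
  have h4 : (fun k : ℕ => ‖(ev T)^[n * k] b‖) = fun _ => ‖b‖ := by
    funext k
    rw [h1]
  rw [h4] at h3
  exact not_tendsto_nhds_of_tendsto_atTop h3 ‖b‖ tendsto_const_nhds

/-- `Mh b` is continuous off `b` -/
theorem tendsto_Mh {b x : ℂ} (hx : x ≠ b) {y : ℕ → ℂ} (hy : Tendsto y atTop (𝓝 x)) :
    Tendsto (fun k => Mh b (y k)) atTop (𝓝 ((M b x : ℂ) : OnePoint ℂ)) := by
  have h1 : ∀ᶠ k in atTop, y k ≠ b := hy.eventually_ne hx
  have h2 : Tendsto (fun k => M b (y k)) atTop (𝓝 (M b x)) := by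
    unfold M
    exact (hy.sub_const b).inv₀ (sub_ne_zero.2 hx)
  have h3 : Tendsto (fun k => ((M b (y k) : ℂ) : OnePoint ℂ)) atTop
      (𝓝 ((M b x : ℂ) : OnePoint ℂ)) := (OnePoint.continuous_coe.tendsto _).comp h2
  refine h3.congr' ?_
  filter_upwards [h1] with k hk
  exact (Mh_ne hk).symm

/-- `Mh b` tends to `0` at infinity -/
theorem tendsto_Mh_inf {b : ℂ} {y : ℕ → ℂ} (hy : Tendsto (fun k => ‖y k‖) atTop atTop) :
    Tendsto (fun k => Mh b (y k)) atTop (𝓝 ((0 : ℂ) : OnePoint ℂ)) := by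
  have h0 : Tendsto (fun k => ‖y k - b‖) atTop atTop := by
    refine tendsto_atTop_mono (fun k => norm_sub_norm_le (y k) b) ?_
    exact tendsto_atTop_add_const_right _ _ hy
  have h1 : ∀ᶠ k in atTop, y k ≠ b := by
    filter_upwards [h0.eventually_gt_atTop 0] with k hk hkb
    rw [hkb, sub_self, norm_zero] at hk
    exact lt_irrefl _ hk
  have h2 : Tendsto (fun k => M b (y k)) atTop (𝓝 0) := by
    rw [tendsto_zero_iff_norm_tendsto_zero]
    have h3 : (fun k => ‖M b (y k)‖) = fun k => ‖y k - b‖⁻¹ := by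
      funext k
      unfold M
      rw [norm_inv]
    rw [h3]
    exact h0.inv_tendsto_atTop
  have h3 : Tendsto (fun k => ((M b (y k) : ℂ) : OnePoint ℂ)) atTop
      (𝓝 ((0 : ℂ) : OnePoint ℂ)) := (OnePoint.continuous_coe.tendsto _).comp h2
  refine h3.congr' ?_
  filter_upwards [h1] with k hk
  exact (Mh_ne hk).symm

/-- **Attracted points, from the plane to the sphere.** -/
theorem t_ATT2 (h1 : S_SPH) (h2 : S_ITD) (_h3 : S_ESCB) : S_ATT2 := by
  intro d b T hd hT hb
  obtain ⟨hsph, hsph0, hder⟩ := h1 d b T hd hT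
  have hfix : ∀ i : ℕ, (sph d (X ^ d) (DQ d b T))^[i] ((0 : ℂ) : OnePoint ℂ) =
      ((0 : ℂ) : OnePoint ℂ) := fun i => Function.iterate_fixed hsph0 i
  have hder1 : ‖deriv ((rf (X ^ d) (DQ d b T))^[1]) 0‖ < 1 := by
    rw [Function.iterate_one, hder, norm_zero]
    exact one_pos
  refine ⟨⟨1, one_pos, 0, fun i => ?_, hfix 1, hder1, ?_⟩, fun z hz => ?_⟩
  · rw [hfix]
    exact OnePoint.coe_ne_infty _
  · refine tendsto_const_nhds.congr fun k => ?_
    rw [hfix]
  rcases hz with hz | hz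
  · refine ⟨1, one_pos, 0, fun i => ?_, hfix 1, hder1, ?_⟩
    · rw [hfix]
      exact OnePoint.coe_ne_infty _
    · refine (tendsto_Mh_inf (b := b) hz).congr fun k => ?_
      rw [one_mul, iter_Mh hsph]
  · obtain ⟨n, hn, x, hx, hdx, hlim⟩ := hz
    have hne : ∀ j, (ev T)^[j] x ≠ b := cycle_ne hb hn hx
    have hxb : x ≠ b := hne 0
    refine ⟨n, hn, M b x, fun i => ?_, ?_, ?_, ?_⟩
    · rw [← Mh_ne hxb, iter_Mh hsph, Mh_ne (hne i)]
      exact OnePoint.coe_ne_infty _
    · rw [← Mh_ne hxb, iter_Mh hsph, hx]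
    · have h4 := (h2 d b T (by omega) hT.le x n (fun j _ => hne j)).2 (hne n) hxb
      rw [h4, hx, div_self (sub_ne_zero.2 hxb), one_pow, mul_one]
      exact hdx
    · refine (tendsto_Mh hxb hlim).congr fun k => ?_
      rw [iter_Mh hsph]

end Pool.Agent.H914.TP207.ATT2
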